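import Mathlib

/-!
# A self-dual minor-closed class of infinite matroids containing all independence spaces

The class of all (possibly infinite) direct sums of matroids each of which is finitary or
cofinitary is closed under restriction, contraction, duality and direct sums and contains every
independence space; but it does not contain every B-matroid: on every infinite set there is a
connected matroid which is neither finitary nor cofinitary.
-/

set_option autoImplicit false

namespace Pool.Agent.Results.MP_cb2a9f_co.DirectSums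

open Set
open scoped Matroid

universe u

variable {S : Type u}

/-- `I` is (the family of independent sets of) a pre-independence space on the set `W`. -/
structure IsPreIndependenceSpace (W : Set S) (I : Set (Set S)) : Prop where
  subset_ground : ∀ X ∈ I, X ⊆ W
  empty_mem : ∅ ∈ I
  down : ∀ X ∈ I, ∀ Y, Y ⊆ X → Y ∈ I
  aug : ∀ X ∈ I, ∀ Y ∈ I, X.Finite → Y.Finite → X.ncard < Y.ncard →
    ∃ e ∈ Y \ X, insert e X ∈ I

/-- `I` is an independence space on `W`: a pre-independence space which contains every set all of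
whose finite subsets it contains. -/
structure IsIndependenceSpace (W : Set S) (I : Set (Set S)) : Prop
    extends IsPreIndependenceSpace W I where
  finitary : ∀ Y, (∀ Z ⊆ Y, Z.Finite → Z ∈ I) → Y ∈ I

/-- `B` is a maximal member of `{Y ∈ I : Y ⊆ X}`. -/
def IsMaxIn (I : Set (Set S)) (X B : Set S) : Prop :=
  (B ∈ I ∧ B ⊆ X) ∧ ∀ B', B' ∈ I → B' ⊆ X → B ⊆ B' → B' = B

/-- `I` is a B-matroid on `W`. -/
structure IsBMatroid (W : Set S) (I : Set (Set S)) : Prop where
  subset_ground : ∀ X ∈ I, X ⊆ W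
  empty_mem : ∅ ∈ I
  down : ∀ X ∈ I, ∀ Y, Y ⊆ X → Y ∈ I
  ib1 : ∀ X ⊆ W, ∀ T ∈ I, T ⊆ X → ∃ B, IsMaxIn I X B ∧ T ⊆ B
  ib2 : ∀ X ⊆ W, ∀ B₁ B₂, IsMaxIn I X B₁ → IsMaxIn I X B₂ → ∀ x ∈ B₁ \ B₂,
    ∃ y ∈ B₂ \ B₁, IsMaxIn I X (insert y (B₁ \ {x}))

/-- `B` is a basis of `I`: a maximal member of `I`. -/
def IsBasisOf (I : Set (Set S)) (B : Set S) : Prop := B ∈ I ∧ ∀ B' ∈ I, B ⊆ B' → B' = B

/-- The restriction of `I` to `Z`. -/
def restr (I : Set (Set S)) (Z : Set S) : Set (Set S) := {Y | Y ⊆ Z ∧ Y ∈ I}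

/-- The contraction `{Y ⊆ Z : Y ∪ B ∈ I}` (used when `B` is a basis of the restriction of `I` to
`W \ Z`). -/
def contr (I : Set (Set S)) (Z B : Set S) : Set (Set S) := {Y | Y ⊆ Z ∧ Y ∪ B ∈ I}

/-- The dual of `I` on `W`. -/
def dualOf (W : Set S) (I : Set (Set S)) : Set (Set S) := {X | X ⊆ W ∧ ∃ B, IsBasisOf I B ∧ B ⊆ W \ X}

/-- The direct sum of the families `I k` on the sets `W k`. -/
def directSum {κ : Type u} (W : κ → Set S) (I : κ → Set (Set S)) : Set (Set S) :=
  {X | X ⊆ ⋃ k, W k ∧ ∀ k, X ∩ W k ∈ I k}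

/-- `D` is an admissible system: for every `W` the members of `D W` are pre-independence spaces
on `W`; restrictions and contractions to `Z ⊆ W` of members of `D W` are in `D Z`, contractions
being well defined (`I` restricted to `W \ Z` has a basis, and the contraction does not depend on
its choice); the dual maps `D W` into `D W` and is an involution on it. -/
structure IsAdmissible (D : Set S → Set (Set (Set S))) : Prop where
  pre : ∀ W, ∀ I ∈ D W, IsPreIndependenceSpace W I
  restr_mem : ∀ W Z, Z ⊆ W → ∀ I ∈ D W, restr I Z ∈ D Z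
  contr_exists : ∀ W Z, Z ⊆ W → ∀ I ∈ D W, ∃ B, IsBasisOf (restr I (W \ Z)) B
  contr_unique : ∀ W Z, Z ⊆ W → ∀ I ∈ D W, ∀ B B', IsBasisOf (restr I (W \ Z)) B →
    IsBasisOf (restr I (W \ Z)) B' → contr I Z B = contr I Z B'
  contr_mem : ∀ W Z, Z ⊆ W → ∀ I ∈ D W, ∀ B, IsBasisOf (restr I (W \ Z)) B → contr I Z B ∈ D Z
  dual_mem : ∀ W, ∀ I ∈ D W, dualOf W I ∈ D W
  dual_dual : ∀ W, ∀ I ∈ D W, dualOf W (dualOf W I) = I

/-- the family of independent sets of a matroid of Mathlib -/
def indeps (M : Matroid S) : Set (Set S) := {X | M.Indep X}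

theorem indeps_inj {M N : Matroid S} (hE : M.E = N.E) (h : indeps M = indeps N) : M = N := by
  apply Matroid.ext_indep hE
  intro I _
  have : I ∈ indeps M ↔ I ∈ indeps N := by rw [h]
  exact this

theorem isMaxIn_iff (M : Matroid S) {X B : Set S} (hX : X ⊆ M.E) :
    IsMaxIn (indeps M) X B ↔ M.IsBasis B X := by
  rw [Matroid.isBasis_iff]
  constructor
  · rintro ⟨⟨h1, h2⟩, h3⟩
    exact ⟨h1, h2, fun J hJ hBJ hJX => (h3 J hJ hJX hBJ).symm⟩
  · rintro ⟨h1, h2, h3⟩
    exact ⟨⟨h1, h2⟩, fun J hJ hJX hBJ => (h3 J hJ hBJ hJX).symm⟩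

theorem isBasisOf_iff (M : Matroid S) {B : Set S} : IsBasisOf (indeps M) B ↔ M.IsBase B := by
  rw [Matroid.isBase_iff_maximal_indep, maximal_subset_iff]
  constructor
  · rintro ⟨h1, h3⟩
    exact ⟨h1, fun J hJ hBJ => (h3 J hJ hBJ).symm⟩
  · rintro ⟨h1, h3⟩
    exact ⟨h1, fun J hJ hBJ => (h3 hJ hBJ).symm⟩

theorem restr_indeps (M : Matroid S) (Z : Set S) : restr (indeps M) Z = indeps (M ↾ Z) := by
  ext X
  simp only [restr, indeps, mem_ofPred_eq, Matroid.restrict_indep_iff]
  exact and_comm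

theorem dualOf_indeps (M : Matroid S) : dualOf M.E (indeps M) = indeps M✶ := by
  ext X
  simp only [dualOf, indeps, mem_ofPred_eq]
  rw [Matroid.dual_indep_iff_exists']
  constructor
  · rintro ⟨h1, B, h2, h3⟩
    exact ⟨h1, B, (isBasisOf_iff M).1 h2, (disjoint_sdiff_left.mono_left h3).symm⟩
  · rintro ⟨h1, B, h2, h3⟩
    exact ⟨h1, B, (isBasisOf_iff M).2 h2, subset_sdiff.2 ⟨h2.subset_ground, h3.symm⟩⟩

theorem contr_indeps (M : Matroid S) {Z B : Set S} (_hZ : Z ⊆ M.E)
    (hB : IsBasisOf (restr (indeps M) (M.E \ Z)) B) :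
    contr (indeps M) Z B = indeps (M ／ (M.E \ Z)) := by
  rw [restr_indeps, isBasisOf_iff, Matroid.isBase_restrict_iff] at hB
  ext X
  simp only [contr, indeps, mem_ofPred_eq]
  rw [hB.contract_indep_iff]
  constructor
  · rintro ⟨h1, h2⟩
    exact ⟨h2, disjoint_sdiff_left.mono_right h1⟩
  · rintro ⟨h1, h2⟩
    refine ⟨fun x hx => ?_, h1⟩
    by_contra hxZ
    exact disjoint_left.1 h2 ⟨(h1.subset subset_union_left).subset_ground hx, hxZ⟩ hx

theorem isPre_indeps (M : Matroid S) : IsPreIndependenceSpace M.E (indeps M) where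
  subset_ground X hX := Matroid.Indep.subset_ground hX
  empty_mem := M.empty_indep
  down X hX Y hY := Matroid.Indep.subset hX hY
  aug X hX Y hY hXf hYf hlt := by
    have h1 : X.encard < Y.encard := by
      rw [← hXf.cast_ncard_eq, ← hYf.cast_ncard_eq]
      exact_mod_cast hlt
    obtain ⟨e, he, h⟩ := Matroid.Indep.augment (M := M) hX hY h1
    exact ⟨e, he, h⟩

theorem isBMatroid_indeps (M : Matroid S) : IsBMatroid M.E (indeps M) where
  subset_ground X hX := Matroid.Indep.subset_ground hX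
  empty_mem := M.empty_indep
  down X hX Y hY := Matroid.Indep.subset hX hY
  ib1 X hX T hT hTX := by
    obtain ⟨B, hB, hTB⟩ := Matroid.Indep.subset_isBasis_of_subset (M := M) hT hTX hX
    exact ⟨B, (isMaxIn_iff M hX).2 hB, hTB⟩
  ib2 X hX B₁ B₂ h1 h2 x hx := by
    rw [isMaxIn_iff M hX, ← Matroid.isBase_restrict_iff] at h1 h2
    obtain ⟨y, hy, h⟩ := h1.exchange h2 hx
    exact ⟨y, hy, by rw [isMaxIn_iff M hX, ← Matroid.isBase_restrict_iff]; exact h⟩

/-- `P` is a decomposition of the matroid `M` as a direct sum of restrictions of `M`, each of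
which is finitary or cofinitary. -/
structure Decomp (M : Matroid S) (P : Set (Set S)) : Prop where
  cover : ⋃₀ P = M.E
  disj : ∀ K ∈ P, ∀ K' ∈ P, K ≠ K' → Disjoint K K'
  sum : ∀ X ⊆ M.E, (∀ K ∈ P, M.Indep (X ∩ K)) → M.Indep X
  fin : ∀ K ∈ P, (M ↾ K).Finitary ∨ (M ↾ K)✶.Finitary

theorem Decomp.restrict {M : Matroid S} {P : Set (Set S)} (h : Decomp M P) {Z : Set S}
    (hZ : Z ⊆ M.E) : Decomp (M ↾ Z) ((fun K => K ∩ Z) '' P) where
  cover := by
    rw [sUnion_image, ← iUnion₂_inter, ← sUnion_eq_biUnion, h.cover, inter_eq_right.2 hZ]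
    rfl
  disj := by
    rintro _ ⟨K, hK, rfl⟩ _ ⟨K', hK', rfl⟩ hne
    have hKK : K ≠ K' := fun e => hne (by rw [e])
    exact (h.disj K hK K' hK' hKK).mono inter_subset_left inter_subset_left
  sum X hX hind := by
    rw [Matroid.restrict_indep_iff]
    refine ⟨h.sum X (hX.trans hZ) fun K hK => ?_, hX⟩
    have h1 := hind _ ⟨K, hK, rfl⟩
    rw [Matroid.restrict_indep_iff] at h1
    have h2 : X ∩ (K ∩ Z) = X ∩ K := by
      ext x
      constructor
      · rintro ⟨a, b, c⟩; exact ⟨a, b⟩
      · rintro ⟨a, b⟩; exact ⟨a, b, hX a⟩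
    rw [← h2]
    exact h1.1
  fin := by
    rintro _ ⟨K, hK, rfl⟩
    have hKE : K ⊆ M.E := by rw [← h.cover]; exact subset_sUnion_of_mem hK
    have h3 : (M ↾ Z) ↾ (K ∩ Z) = (M ↾ K) ↾ (K ∩ Z) := by
      rw [Matroid.restrict_restrict_eq _ inter_subset_right,
        Matroid.restrict_restrict_eq _ inter_subset_left]
    rw [h3]
    rcases h.fin K hK with h4 | h4
    · left
      infer_instance
    · right
      have h5 : ((M ↾ K) ↾ (K ∩ Z))✶ = (M ↾ K)✶ ／ (K \ (K ∩ Z)) := by
        rw [← Matroid.dual_delete, Matroid.delete_eq_restrict]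
        congr 2
        rw [Matroid.restrict_ground_eq]
        rw [sdiff_sdiff_cancel_left inter_subset_left]
      rw [h5]
      infer_instance

theorem Decomp.insert_indep {M : Matroid S} {P : Set (Set S)} (h : Decomp M P) {X : Set S}
    {K : Set S} (hK : K ∈ P) {e : S} (heK : e ∈ K) (hX : M.Indep X)
    (hXK : M.Indep (insert e (X ∩ K))) : M.Indep (insert e X) := by
  have heE : e ∈ M.E := hXK.subset_ground (mem_insert _ _)
  apply h.sum
  · exact insert_subset heE hX.subset_ground
  intro K' hK'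
  by_cases hKK : K' = K
  · subst hKK
    apply hXK.subset
    rintro x ⟨hx | hx, hx'⟩
    · exact Or.inl hx
    · exact Or.inr ⟨hx, hx'⟩
  · apply hX.subset
    rintro x ⟨hx | hx, hx'⟩
    · exfalso
      subst hx
      exact disjoint_left.1 (h.disj K' hK' K hK hKK) hx' heK
    · exact hx

theorem Decomp.isBase_iff {M : Matroid S} {P : Set (Set S)} (h : Decomp M P) {B : Set S}
    (hB : B ⊆ M.E) : M.IsBase B ↔ ∀ K ∈ P, (M ↾ K).IsBase (B ∩ K) := by
  have hKE : ∀ K ∈ P, K ⊆ M.E := fun K hK => by rw [← h.cover]; exact subset_sUnion_of_mem hK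
  constructor
  · intro hBb K hK
    rw [Matroid.isBase_restrict_iff (hKE K hK), Matroid.isBasis_iff]
    refine ⟨hBb.indep.subset inter_subset_left, inter_subset_right, ?_⟩
    intro J hJ hBJ hJK
    apply Subset.antisymm hBJ
    intro e he
    refine ⟨?_, hJK he⟩
    by_contra heB
    have h1 : M.Indep (insert e B) := h.insert_indep hK (hJK he) hBb.indep
      (hJ.subset (insert_subset he hBJ))
    have h2 := hBb.eq_of_subset_indep h1 (subset_insert _ _)
    exact heB (h2 ▸ mem_insert _ _)
  · intro hall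
    have hind : M.Indep B := h.sum B hB fun K hK => (hall K hK).indep.of_restrict
    rw [Matroid.isBase_iff_maximal_indep, maximal_subset_iff]
    refine ⟨hind, fun J hJ hBJ => ?_⟩
    apply Subset.antisymm hBJ
    intro e he
    have heE : e ∈ ⋃₀ P := by rw [h.cover]; exact hJ.subset_ground he
    obtain ⟨K, hK, heK⟩ := heE
    have h1 : (M ↾ K).Indep (J ∩ K) := by
      rw [Matroid.restrict_indep_iff]
      exact ⟨hJ.subset inter_subset_left, inter_subset_right⟩
    have h2 := (hall K hK).eq_of_subset_indep h1 (inter_subset_inter_left K hBJ)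
    have h3 : e ∈ B ∩ K := by rw [h2]; exact ⟨he, heK⟩
    exact h3.1

theorem Decomp.dual_restrict {M : Matroid S} {P : Set (Set S)} (h : Decomp M P) {K : Set S}
    (hK : K ∈ P) : M✶ ↾ K = (M ↾ K)✶ := by
  have hKE : ∀ K ∈ P, K ⊆ M.E := fun K hK => by rw [← h.cover]; exact subset_sUnion_of_mem hK
  refine Matroid.ext_indep (M₁ := M✶ ↾ K) (M₂ := (M ↾ K)✶) rfl ?_
  intro X hX
  have hXK : X ⊆ K := hX
  rw [Matroid.restrict_indep_iff, Matroid.dual_indep_iff_exists', Matroid.dual_indep_iff_exists']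
  constructor
  · rintro ⟨⟨h1, B, hB, hdisj⟩, h2⟩
    exact ⟨hX, B ∩ K, (h.isBase_iff hB.subset_ground).1 hB K hK,
      hdisj.mono_right inter_subset_left⟩
  · rintro ⟨h1, B', hB', hdisj⟩
    obtain ⟨B₀, hB₀⟩ := M.exists_isBase
    refine ⟨⟨hXK.trans (hKE K hK), (B₀ \ K) ∪ B', ?_, ?_⟩, hXK⟩
    · have hB'K : B' ⊆ K := hB'.subset_ground
      rw [h.isBase_iff (union_subset (sdiff_subset.trans hB₀.subset_ground)
        (hB'K.trans (hKE K hK)))]
      intro K' hK'
      by_cases hKK : K' = K
      · subst hKK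
        convert! hB' using 1
        ext x
        constructor
        · rintro ⟨hx | hx, hx'⟩
          · exact absurd hx' hx.2
          · exact hx
        · intro hx
          exact ⟨Or.inr hx, hB'K hx⟩
      · convert! (h.isBase_iff hB₀.subset_ground).1 hB₀ K' hK' using 1
        ext x
        constructor
        · rintro ⟨hx | hx, hx'⟩
          · exact ⟨hx.1, hx'⟩
          · exact absurd (hB'K hx) (disjoint_left.1 (h.disj K' hK' K hK hKK) hx')
        · rintro ⟨hx, hx'⟩
          exact ⟨Or.inl ⟨hx, disjoint_left.1 (h.disj K' hK' K hK hKK) hx'⟩, hx'⟩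
    · rw [disjoint_union_right]
      exact ⟨(disjoint_sdiff_left.mono_right hXK).symm, hdisj⟩

theorem Decomp.dual {M : Matroid S} {P : Set (Set S)} (h : Decomp M P) : Decomp M✶ P where
  cover := h.cover
  disj := h.disj
  sum X hX hind := by
    classical
    have hX' : X ⊆ M.E := hX
    have hKE : ∀ K ∈ P, K ⊆ M.E := fun K hK => by rw [← h.cover]; exact subset_sUnion_of_mem hK
    have h1 : ∀ K : Set S, ∃ B, K ∈ P → (M.IsBase B ∧ Disjoint (X ∩ K) B) := by
      intro K
      by_cases hK : K ∈ P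
      · obtain ⟨-, B, hB, hd⟩ := Matroid.dual_indep_iff_exists'.1 (hind K hK)
        exact ⟨B, fun _ => ⟨hB, hd⟩⟩
      · exact ⟨∅, fun h => absurd h hK⟩
    choose B hB using h1
    rw [Matroid.dual_indep_iff_exists']
    refine ⟨hX', {x | ∃ K ∈ P, x ∈ B K ∩ K}, ?_, ?_⟩
    · rw [h.isBase_iff]
      · intro K hK
        convert! (h.isBase_iff (hB K hK).1.subset_ground).1 (hB K hK).1 K hK using 1
        ext x
        constructor
        · rintro ⟨⟨K', hK', hx⟩, hxK⟩
          by_cases hKK : K' = K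
          · subst hKK; exact hx
          · exact absurd hxK (disjoint_left.1 (h.disj K' hK' K hK hKK) hx.2)
        · intro hx
          exact ⟨⟨K, hK, hx⟩, hx.2⟩
      · rintro x ⟨K, hK, hx⟩
        exact hKE K hK hx.2
    · rw [disjoint_left]
      rintro x hx ⟨K, hK, hx'⟩
      exact disjoint_left.1 (hB K hK).2 ⟨hx, hx'.2⟩ hx'.1
  fin K hK := by
    rw [h.dual_restrict hK]
    rcases h.fin K hK with h1 | h1
    · right
      rw [Matroid.dual_dual]
      exact h1
    · left
      exact h1

/-- The system of all direct sums of finitary and cofinitary matroids. -/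
def sys (S : Type u) (W : Set S) : Set (Set (Set S)) :=
  {I | ∃ M : Matroid S, M.E = W ∧ (∃ P, Decomp M P) ∧ I = indeps M}

theorem isAdmissible_sys : IsAdmissible (sys S) where
  pre := by
    rintro W I ⟨M, rfl, _, rfl⟩
    exact isPre_indeps M
  restr_mem := by
    rintro W Z hZ I ⟨M, rfl, ⟨P, hP⟩, rfl⟩
    exact ⟨M ↾ Z, rfl, ⟨_, hP.restrict hZ⟩, restr_indeps M Z⟩
  contr_exists := by
    rintro W Z hZ I ⟨M, rfl, _, rfl⟩
    obtain ⟨B, hB⟩ := (M ↾ (M.E \ Z)).exists_isBase
    exact ⟨B, by rw [restr_indeps, isBasisOf_iff]; exact hB⟩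
  contr_unique := by
    rintro W Z hZ I ⟨M, rfl, _, rfl⟩ B B' hB hB'
    rw [contr_indeps M hZ hB, contr_indeps M hZ hB']
  contr_mem := by
    rintro W Z hZ I ⟨M, rfl, ⟨P, hP⟩, rfl⟩ B hB
    refine ⟨M ／ (M.E \ Z), ?_, ⟨(fun K => K ∩ Z) '' P, ?_⟩, contr_indeps M hZ hB⟩
    · rw [Matroid.contract_ground, sdiff_sdiff_cancel_left hZ]
    · have h1 : M ／ (M.E \ Z) = (M✶ ↾ Z)✶ := by
        rw [← Matroid.dual_delete_dual, Matroid.delete_eq_restrict]
        congr 2
        rw [Matroid.dual_ground, sdiff_sdiff_cancel_left hZ]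
      rw [h1]
      exact (hP.dual.restrict hZ).dual
  dual_mem := by
    rintro W I ⟨M, rfl, ⟨P, hP⟩, rfl⟩
    exact ⟨M✶, rfl, ⟨P, hP.dual⟩, dualOf_indeps M⟩
  dual_dual := by
    rintro W I ⟨M, rfl, ⟨P, hP⟩, rfl⟩
    rw [dualOf_indeps]
    have := dualOf_indeps M✶
    rw [Matroid.dual_ground, Matroid.dual_dual] at this
    exact this

theorem independenceSpace_mem_sys (W : Set S) (I : Set (Set S)) (hI : IsIndependenceSpace W I) :
    I ∈ sys S W := by
  have hcompact : ∀ X : Set S, (∀ J, J ⊆ X → J.Finite → J ∈ I) → X ∈ I :=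
    fun X hX => hI.finitary X hX
  have haug : ∀ ⦃X Y : Set S⦄, X ∈ I → X.Finite → Y ∈ I → Y.Finite → X.ncard < Y.ncard →
      ∃ e ∈ Y, e ∉ X ∧ insert e X ∈ I := by
    intro X Y hX hXf hY hYf hlt
    obtain ⟨e, he, h⟩ := hI.aug X hX Y hY hXf hYf hlt
    exact ⟨e, he.1, he.2, h⟩
  let M' : IndepMatroid S := IndepMatroid.ofFinitaryCardAugment W (fun X => X ∈ I) hI.empty_mem
    (fun X Y hY hXY => hI.down Y hY X hXY) haug hcompact (fun X hX => hI.subset_ground X hX)
  have hfin : M'.matroid.Finitary := by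
    apply IndepMatroid.ofFinitaryCardAugment_finitary
  have hE : M'.matroid.E = W := rfl
  refine ⟨M'.matroid, hE, ⟨{W}, ?_, ?_, ?_, ?_⟩, ?_⟩
  · rw [sUnion_singleton, hE]
  · rintro K rfl K' rfl h
    exact absurd rfl h
  · intro X hX h
    have := h W rfl
    rwa [inter_eq_left.2 (show X ⊆ W from hX)] at this
  · rintro K rfl
    left
    infer_instance
  · rfl

theorem directSum_mem_sys {κ : Type u} (W : κ → Set S) (I : κ → Set (Set S))
    (hd : Pairwise fun i j => Disjoint (W i) (W j)) (hI : ∀ k, I k ∈ sys S (W k)) :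
    directSum W I ∈ sys S (⋃ k, W k) := by
  classical
  choose M hE hP hIM using hI
  choose P hP using hP
  have hWd : ∀ {i j : κ} {x : S}, x ∈ W i → x ∈ W j → i = j := by
    intro i j x hi hj
    by_contra hne
    exact disjoint_left.1 (hd hne) hi hj
  -- the direct sum matroid
  let Ind : Set S → Prop := fun X => X ⊆ ⋃ k, W k ∧ ∀ k, (M k).Indep (X ∩ W k)
  have hbase : ∀ X : Set S, X ⊆ ⋃ k, W k → ∀ T, Ind T → T ⊆ X →
      ∃ B, T ⊆ B ∧ Maximal (fun Y => Ind Y ∧ Y ⊆ X) B := by
    intro X hX T hT hTX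
    have h1 : ∀ k, ∃ B, (M k).IsBasis B (X ∩ W k) ∧ T ∩ W k ⊆ B := fun k =>
      (hT.2 k).subset_isBasis_of_subset (inter_subset_inter_left _ hTX)
        (by rw [hE k]; exact inter_subset_right)
    choose B hB hTB using h1
    have hBW : ∀ k, (⋃ i, B i) ∩ W k = B k := by
      intro k
      ext x
      constructor
      · rintro ⟨hx, hxk⟩
        obtain ⟨i, hi⟩ := mem_iUnion.1 hx
        have : i = k := hWd ((hB i).subset hi).2 hxk
        subst this
        exact hi
      · intro hx
        exact ⟨mem_iUnion.2 ⟨k, hx⟩, ((hB k).subset hx).2⟩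
    refine ⟨⋃ i, B i, ?_, ?_⟩
    · intro x hx
      obtain ⟨k, hk⟩ := mem_iUnion.1 (hT.1 hx)
      exact mem_iUnion.2 ⟨k, hTB k ⟨hx, hk⟩⟩
    · rw [maximal_subset_iff]
      refine ⟨⟨⟨?_, ?_⟩, ?_⟩, ?_⟩
      · exact iUnion_subset fun i => (hB i).subset.trans (inter_subset_left.trans hX)
      · intro k
        rw [hBW]
        exact (hB k).indep
      · exact iUnion_subset fun i => (hB i).subset.trans inter_subset_left
      · rintro J ⟨⟨hJ1, hJ2⟩, hJX⟩ hBJ
        apply Subset.antisymm hBJ
        intro x hx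
        obtain ⟨k, hk⟩ := mem_iUnion.1 (hJ1 hx)
        have h2 := (hB k).eq_of_subset_indep (hJ2 k) (by
          rw [← hBW k]; exact inter_subset_inter_left _ hBJ) (inter_subset_inter_left _ hJX)
        exact mem_iUnion.2 ⟨k, by rw [h2]; exact ⟨hx, hk⟩⟩
  have hmaxk : ∀ B, Maximal Ind B → ∀ k, (M k).IsBase (B ∩ W k) := by
    intro B hB k
    rw [Matroid.isBase_iff_maximal_indep, maximal_subset_iff]
    refine ⟨hB.1.2 k, fun J hJ hBJ => ?_⟩
    apply Subset.antisymm hBJ
    intro e he
    have heW : e ∈ W k := by rw [← hE k]; exact hJ.subset_ground he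
    refine ⟨?_, heW⟩
    have h3 : Ind (insert e B) := by
      refine ⟨insert_subset (mem_iUnion.2 ⟨k, heW⟩) hB.1.1, fun i => ?_⟩
      by_cases hik : i = k
      · subst hik
        apply hJ.subset
        rintro x ⟨hx | hx, hx'⟩
        · rw [hx]; exact he
        · exact hBJ ⟨hx, hx'⟩
      · apply (hB.1.2 i).subset
        rintro x ⟨hx | hx, hx'⟩
        · exfalso
          rw [hx] at hx'
          exact hik (hWd hx' heW)
        · exact ⟨hx, hx'⟩
    exact hB.2 h3 (subset_insert _ _) (mem_insert _ _)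
  let N' : IndepMatroid S :=
    { E := ⋃ k, W k
      Indep := Ind
      indep_empty := ⟨empty_subset _, fun k => by rw [empty_inter]; exact (M k).empty_indep⟩
      indep_subset := fun X Y hY hXY => ⟨hXY.trans hY.1, fun k =>
        (hY.2 k).subset (inter_subset_inter_left _ hXY)⟩
      indep_aug := by
        intro X B hX hXm hBm
        -- some coordinate of `X` is not a base
        have h4 : ∃ k, ¬ (M k).IsBase (X ∩ W k) := by
          by_contra hcon
          push Not at hcon
          apply hXm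
          rw [maximal_subset_iff]
          refine ⟨hX, fun J hJ hXJ => ?_⟩
          apply Subset.antisymm hXJ
          intro e he
          obtain ⟨k, hk⟩ := mem_iUnion.1 (hJ.1 he)
          have h5 := (hcon k).eq_of_subset_indep (hJ.2 k) (inter_subset_inter_left _ hXJ)
          have h6 : e ∈ X ∩ W k := by rw [h5]; exact ⟨he, hk⟩
          exact h6.1
        obtain ⟨k, hk⟩ := h4
        obtain ⟨e, he, hins⟩ := (hX.2 k).exists_insert_of_not_isBase hk (hmaxk B hBm k)
        refine ⟨e, ⟨he.1.1, fun h => he.2 ⟨h, he.1.2⟩⟩, ?_, ?_⟩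
        · exact insert_subset (mem_iUnion.2 ⟨k, he.1.2⟩) hX.1
        · intro i
          by_cases hik : i = k
          · subst hik
            apply hins.subset
            rintro x ⟨hx | hx, hx'⟩
            · exact Or.inl hx
            · exact Or.inr ⟨hx, hx'⟩
          · apply (hX.2 i).subset
            rintro x ⟨hx | hx, hx'⟩
            · exfalso
              rw [hx] at hx'
              exact hik (hWd hx' he.1.2)
            · exact ⟨hx, hx'⟩
      indep_maximal := by
        intro X hX T hT hTX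
        exact hbase X hX T hT hTX
      subset_ground := fun X hX => hX.1 }
  have hN : ∀ X, N'.matroid.Indep X ↔ Ind X := fun X => Iff.rfl
  have hNE : N'.matroid.E = ⋃ k, W k := rfl
  have hrest : ∀ k, ∀ K ⊆ W k, N'.matroid ↾ K = M k ↾ K := by
    intro k K hK
    refine Matroid.ext_indep (M₁ := N'.matroid ↾ K) (M₂ := M k ↾ K) rfl ?_
    intro X hX
    have hXK : X ⊆ K := hX
    rw [Matroid.restrict_indep_iff, Matroid.restrict_indep_iff, hN]
    constructor
    · rintro ⟨h7, h8⟩
      have := h7.2 k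
      rw [inter_eq_left.2 (hXK.trans hK)] at this
      exact ⟨this, h8⟩
    · rintro ⟨h7, h8⟩
      refine ⟨⟨(hXK.trans hK).trans (subset_iUnion _ _), fun i => ?_⟩, h8⟩
      by_cases hik : i = k
      · subst hik
        exact h7.subset inter_subset_left
      · have h9 : X ∩ W i = ∅ := by
          rw [← disjoint_iff_inter_eq_empty, disjoint_left]
          intro x hx hx'
          exact hik (hWd hx' (hK (hXK hx)))
        rw [h9]
        exact (M i).empty_indep
  refine ⟨N'.matroid, hNE, ⟨⋃ k, P k, ?_, ?_, ?_, ?_⟩, ?_⟩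
  · rw [hNE]
    ext x
    constructor
    · rintro ⟨K, hK, hx⟩
      obtain ⟨k, hk⟩ := mem_iUnion.1 hK
      refine mem_iUnion.2 ⟨k, ?_⟩
      rw [← hE k, ← (hP k).cover]
      exact ⟨K, hk, hx⟩
    · intro hx
      obtain ⟨k, hk⟩ := mem_iUnion.1 hx
      rw [← hE k, ← (hP k).cover] at hk
      obtain ⟨K, hK, hxK⟩ := hk
      exact ⟨K, mem_iUnion.2 ⟨k, hK⟩, hxK⟩
  · intro K hK K' hK' hne
    obtain ⟨k, hk⟩ := mem_iUnion.1 hK
    obtain ⟨k', hk'⟩ := mem_iUnion.1 hK'
    have h9 : K ⊆ W k := by rw [← hE k, ← (hP k).cover]; exact subset_sUnion_of_mem hk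
    have h10 : K' ⊆ W k' := by rw [← hE k', ← (hP k').cover]; exact subset_sUnion_of_mem hk'
    by_cases hkk : k = k'
    · subst hkk
      exact (hP k).disj K hk K' hk' hne
    · exact (hd hkk).mono h9 h10
  · intro X hX h
    refine ⟨hX, fun k => ?_⟩
    apply (hP k).sum
    · rw [hE k]; exact inter_subset_right
    · intro K hK
      have h11 := (h K (mem_iUnion.2 ⟨k, hK⟩)).2 k
      apply h11.subset
      rintro x ⟨⟨hx1, hx2⟩, hx3⟩
      exact ⟨⟨hx1, hx3⟩, hx2⟩
  · intro K hK
    obtain ⟨k, hk⟩ := mem_iUnion.1 hK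
    have h9 : K ⊆ W k := by rw [← hE k, ← (hP k).cover]; exact subset_sUnion_of_mem hk
    rw [hrest k K h9]
    exact (hP k).fin K hk
  · ext X
    simp only [directSum, mem_ofPred_eq, indeps]
    rw [hN]
    constructor
    · rintro ⟨h1, h2⟩
      exact ⟨h1, fun k => by have := h2 k; rw [hIM k] at this; exact this⟩
    · rintro ⟨h1, h2⟩
      exact ⟨h1, fun k => by rw [hIM k]; exact h2 k⟩

/-- The dual of the uniform matroid of rank two on an infinite set `E`. -/
theorem exists_dualUniform {E : Set S} (hE : E.Infinite) :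
    ∃ N : Matroid S, N.E = E ∧ ∀ Y, N.Indep Y ↔ Y ⊆ E ∧ (E \ Y).Nontrivial := by
  let U : IndepMatroid S := IndepMatroid.ofBddAugment E (fun X => X ⊆ E ∧ X.encard ≤ 2)
    ⟨empty_subset _, by simp⟩
    (fun X Y hY hXY => ⟨hXY.trans hY.1, (encard_le_encard hXY).trans hY.2⟩)
    (by
      rintro X Y ⟨hX, hX2⟩ ⟨hY, hY2⟩ hlt
      have h1 : (Y \ X).Nonempty := by
        rw [nonempty_iff_ne_empty]
        intro h
        rw [sdiff_eq_empty] at h
        exact absurd (encard_le_encard h) (not_le.2 hlt)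
      obtain ⟨e, he⟩ := h1
      refine ⟨e, he.1, he.2, insert_subset (hY he.1) hX, ?_⟩
      rw [encard_insert_of_notMem he.2]
      exact (Order.add_one_le_of_lt hlt).trans hY2)
    ⟨2, fun X hX => by exact_mod_cast hX.2⟩
    (fun X hX => hX.1)
  have hU : ∀ X, U.matroid.Indep X ↔ X ⊆ E ∧ X.encard ≤ 2 := fun X => Iff.rfl
  refine ⟨U.matroid✶, rfl, fun Y => ?_⟩
  rw [Matroid.dual_indep_iff_exists']
  have hUE : U.matroid.E = E := rfl
  rw [hUE]
  constructor
  · rintro ⟨hYE, B, hB, hd⟩
    refine ⟨hYE, ?_⟩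
    by_contra hcon
    rw [not_nontrivial_iff] at hcon
    have hBE : B ⊆ E := hB.subset_ground
    have hBY : B ⊆ E \ Y := fun x hx => ⟨hBE hx, fun h => disjoint_left.1 hd h hx⟩
    have hBs : B.Subsingleton := hcon.anti hBY
    have h1 : (E \ B).Nonempty := (hE.sdiff hBs.finite).nonempty
    obtain ⟨e, he⟩ := h1
    have h2 : U.matroid.Indep (insert e B) := by
      rw [hU]
      refine ⟨insert_subset he.1 hBE, ?_⟩
      rw [encard_insert_of_notMem he.2]
      have : B.encard ≤ 1 := encard_le_one_iff_subsingleton.2 hBs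
      calc B.encard + 1 ≤ 1 + 1 := by gcongr
        _ = 2 := by norm_num
    have h3 := hB.eq_of_subset_indep h2 (subset_insert _ _)
    exact he.2 (h3 ▸ mem_insert _ _)
  · rintro ⟨hYE, p, hp, q, hq, hpq⟩
    refine ⟨hYE, {p, q}, ?_, ?_⟩
    · rw [Matroid.isBase_iff_maximal_indep, maximal_subset_iff]
      refine ⟨?_, fun J hJ hBJ => ?_⟩
      · rw [hU]
        exact ⟨pair_subset hp.1 hq.1, (encard_pair hpq).le⟩
      · rw [hU] at hJ
        exact (toFinite {p, q}).eq_of_subset_of_encard_le hBJ (by rw [encard_pair hpq]; exact hJ.2)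
    · rw [disjoint_right]
      rintro x (rfl | rfl)
      · exact hp.2
      · exact hq.2

/-- On every infinite set there is a matroid which is not a direct sum of finitary and cofinitary
matroids. -/
theorem exists_bad {W : Set S} (hW : W.Infinite) :
    ∃ M : Matroid S, M.E = W ∧ ∀ P, ¬ Decomp M P := by
  classical
  obtain ⟨A, B, hAB, hd, hAc⟩ := hW.exists_union_disjoint_cardinal_eq_of_infinite
  have hinf : A.Infinite ∧ B.Infinite := by
    have h1 : A.Finite ↔ B.Finite := by
      rw [← Cardinal.lt_aleph0_iff_set_finite, ← Cardinal.lt_aleph0_iff_set_finite, hAc]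
    have h2 : ¬ (A.Finite ∧ B.Finite) := fun h => hW (hAB ▸ h.1.union h.2)
    constructor
    · intro h; exact h2 ⟨h, h1.1 h⟩
    · intro h; exact h2 ⟨h1.2 h, h⟩
  obtain ⟨hAi, hBi⟩ := hinf
  have hdis : ∀ {x}, x ∈ A → x ∈ B → False := fun ha hb => disjoint_left.1 hd ha hb
  obtain ⟨a₀, ha₀⟩ := hAi.nonempty
  obtain ⟨N, hNE, hN⟩ := exists_dualUniform (E := insert a₀ B) (hBi.mono (subset_insert _ _))
  let f : S → S := fun x => if x ∈ A then a₀ else x
  have hfA : ∀ {x}, x ∈ A → f x = a₀ := fun hx => if_pos hx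
  have hfB : ∀ {x}, x ∈ B → f x = x := fun hx => if_neg (fun h => hdis h hx)
  have hME : (N.comap f).E = W := by
    rw [Matroid.comap_ground_eq, hNE, ← hAB]
    ext x
    rw [mem_preimage]
    constructor
    · intro hx
      by_cases hxA : x ∈ A
      · exact Or.inl hxA
      · have hfx : f x = x := if_neg hxA
        rw [hfx] at hx
        rcases hx with hx | hx
        · exact absurd (hx ▸ ha₀) hxA
        · exact Or.inr hx
    · rintro (hx | hx)
      · rw [hfA hx]; exact mem_insert _ _
      · rw [hfB hx]; exact Or.inr hx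
  set M := N.comap f with hM
  have hMi : ∀ X, M.Indep X ↔ (f '' X ⊆ insert a₀ B ∧ ((insert a₀ B) \ f '' X).Nontrivial) ∧
      InjOn f X := by
    intro X
    rw [hM, Matroid.comap_indep_iff, hN]
  -- sufficient conditions for independence
  have hinj : ∀ X : Set S, X ⊆ A ∪ B → (X ∩ A).Subsingleton → InjOn f X := by
    intro X hX hXA x hx y hy hxy
    rcases hX hx with hxA | hxB <;> rcases hX hy with hyA | hyB
    · exact hXA ⟨hx, hxA⟩ ⟨hy, hyA⟩
    · rw [hfA hxA, hfB hyB] at hxy
      exact (hdis ha₀ (hxy ▸ hyB)).elim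
    · rw [hfB hxB, hfA hyA] at hxy
      exact (hdis ha₀ (hxy.symm ▸ hxB)).elim
    · rw [hfB hxB, hfB hyB] at hxy
      exact hxy
  have himg : ∀ X : Set S, X ⊆ A ∪ B → f '' X ⊆ insert a₀ B := by
    rintro X hX _ ⟨x, hx, rfl⟩
    rcases hX hx with h | h
    · rw [hfA h]; exact mem_insert _ _
    · rw [hfB h]; exact Or.inr h
  have hnot : ∀ X : Set S, X ⊆ A ∪ B → ∀ b ∈ B, b ∉ X → b ∉ f '' X := by
    rintro X hX b hb hbX ⟨x, hx, hxb⟩
    rcases hX hx with h | h
    · rw [hfA h] at hxb
      exact hdis ha₀ (hxb ▸ hb)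
    · rw [hfB h] at hxb
      exact hbX (hxb ▸ hx)
  have hI1 : ∀ X : Set S, X ⊆ A ∪ B → (X ∩ A).Subsingleton → (B \ X).Nontrivial →
      M.Indep X := by
    intro X hX hXA hXB
    rw [hMi]
    refine ⟨⟨himg X hX, ?_⟩, hinj X hX hXA⟩
    obtain ⟨p, hp, q, hq, hpq⟩ := hXB
    exact ⟨p, ⟨Or.inr hp.1, hnot X hX p hp.1 hp.2⟩, q, ⟨Or.inr hq.1, hnot X hX q hq.1 hq.2⟩, hpq⟩
  have hI2 : ∀ X : Set S, X ⊆ B → (B \ X).Nonempty → M.Indep X := by
    intro X hX hXB
    have hX' : X ⊆ A ∪ B := hX.trans subset_union_right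
    rw [hMi]
    refine ⟨⟨himg X hX', ?_⟩, hinj X hX' ?_⟩
    · obtain ⟨p, hp⟩ := hXB
      refine ⟨p, ⟨Or.inr hp.1, hnot X hX' p hp.1 hp.2⟩, a₀, ⟨mem_insert _ _, ?_⟩, ?_⟩
      · rintro ⟨x, hx, hxa⟩
        rw [hfB (hX hx)] at hxa
        exact hdis ha₀ (hxa ▸ hX hx)
      · rintro rfl
        exact hdis ha₀ hp.1
    · intro x hx
      exact (hdis hx.2 (hX hx.1)).elim
  have hD1 : ∀ a ∈ A, ∀ a' ∈ A, a ≠ a' → ∀ X, a ∈ X → a' ∈ X → ¬ M.Indep X := by
    intro a ha a' ha' hne X haX haX' hI
    rw [hMi] at hI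
    exact hne (hI.2 haX haX' (by rw [hfA ha, hfA ha']))
  have hD2 : ∀ X : Set S, ∀ b' ∈ B, (∃ a ∈ A, a ∈ X) → B \ {b'} ⊆ X → ¬ M.Indep X := by
    rintro X b' hb' ⟨a, ha, haX⟩ hBX hI
    rw [hMi] at hI
    obtain ⟨p, hp, q, hq, hpq⟩ := hI.1.2
    have key : ∀ p, p ∈ (insert a₀ B) \ f '' X → p = b' := by
      rintro p ⟨hp1 | hp1, hp2⟩
      · exact absurd ⟨a, haX, by rw [hfA ha, hp1]⟩ hp2
      · by_contra hne
        exact hp2 ⟨p, hBX ⟨hp1, hne⟩, hfB hp1⟩
    exact hpq ((key p hp).trans (key q hq).symm)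
  have hD3 : ¬ M.Indep B := by
    intro hI
    rw [hMi] at hI
    obtain ⟨p, hp, q, hq, hpq⟩ := hI.1.2
    have key : ∀ p, p ∈ (insert a₀ B) \ f '' B → p = a₀ := by
      rintro p ⟨hp1 | hp1, hp2⟩
      · exact hp1
      · exact absurd ⟨p, hp1, hfB hp1⟩ hp2
    exact hpq ((key p hp).trans (key q hq).symm)
  have hsub : ∀ b : S, ({b} ∩ A).Subsingleton := fun b => subsingleton_singleton.anti inter_subset_left
  refine ⟨M, hME, fun P hP => ?_⟩
  -- the set `W` is a member of the decomposition
  have hWP : W ∈ P := by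
    have ha₀W : a₀ ∈ ⋃₀ P := by rw [hP.cover, hME, ← hAB]; exact Or.inl ha₀
    obtain ⟨K, hK, ha₀K⟩ := ha₀W
    have hAK : A ⊆ K := by
      intro a ha
      by_contra haK
      have hne : a₀ ≠ a := fun h => haK (h ▸ ha₀K)
      apply hD1 a₀ ha₀ a ha hne {a₀, a} (by simp) (by simp)
      apply hP.sum
      · rw [hME, ← hAB]
        exact pair_subset (Or.inl ha₀) (Or.inl ha)
      · intro K' hK'
        have hs : ({a₀, a} ∩ K').Subsingleton := by
          by_cases hKK : K' = K
          · subst hKK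
            rintro x ⟨hx | hx, hx'⟩ y ⟨hy | hy, hy'⟩
            · rw [hx, hy]
            · exact absurd (hy ▸ hy') haK
            · exact absurd (hx ▸ hx') haK
            · exact absurd (hx ▸ hx') haK
          · have : ∀ x ∈ ({a₀, a} ∩ K' : Set S), x = a := by
              rintro x ⟨hx | hx, hx'⟩
              · exact absurd ha₀K (disjoint_left.1 (hP.disj K' hK' K hK hKK) (hx ▸ hx'))
              · exact hx
            intro x hx y hy
            rw [this x hx, this y hy]
        apply hI1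
        · rintro x ⟨hx | hx, -⟩
          · rw [hx]; exact Or.inl ha₀
          · rw [hx]; exact Or.inl ha
        · exact hs.anti inter_subset_left
        · exact (hBi.sdiff hs.finite).nontrivial
    have hBK : B ⊆ K := by
      intro b hb
      by_contra hbK
      obtain ⟨b', hb', hbb⟩ := hBi.nontrivial.exists_ne b
      have hX : insert a₀ (B \ {b'}) ⊆ A ∪ B :=
        insert_subset (Or.inl ha₀) (sdiff_subset.trans subset_union_right)
      apply hD2 (insert a₀ (B \ {b'})) b' hb' ⟨a₀, ha₀, mem_insert _ _⟩ (subset_insert _ _)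
      apply hP.sum
      · rw [hME, ← hAB]; exact hX
      · intro K' hK'
        by_cases hKK : K' = K
        · subst hKK
          apply hI1
          · exact inter_subset_left.trans hX
          · have : ∀ x ∈ (insert a₀ (B \ {b'}) ∩ K') ∩ A, x = a₀ := by
              rintro x ⟨⟨hx | hx, -⟩, hxA⟩
              · exact hx
              · exact (hdis hxA hx.1).elim
            intro x hx y hy
            rw [this x hx, this y hy]
          · refine ⟨b, ⟨hb, fun h => hbK h.2⟩, b', ⟨hb', ?_⟩, hbb.symm⟩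
            rintro ⟨hx | hx, -⟩
            · exact hdis ha₀ (hx ▸ hb')
            · exact hx.2 rfl
        · have h5 : insert a₀ (B \ {b'}) ∩ K' ⊆ B \ {b'} := by
            rintro x ⟨hx | hx, hx'⟩
            · exact absurd ha₀K (disjoint_left.1 (hP.disj K' hK' K hK hKK) (hx ▸ hx'))
            · exact hx
          apply hI2
          · exact h5.trans sdiff_subset
          · exact ⟨b', hb', fun h => (h5 h).2 rfl⟩
    have hKW : K = W := by
      apply Subset.antisymm
      · rw [← hME, ← hP.cover]; exact subset_sUnion_of_mem hK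
      · rw [← hAB]; exact union_subset hAK hBK
    exact hKW ▸ hK
  have hMW : M ↾ W = M := by
    rw [← hME]; exact Matroid.restrict_ground_eq_self M
  have hfin := hP.fin W hWP
  rw [hMW] at hfin
  rcases hfin with hfin | hfin
  · -- `M` is not finitary
    apply hD3
    rw [Matroid.indep_iff_forall_finite_subset_indep]
    intro J hJ hJf
    exact hI2 J hJ (hBi.sdiff hJf).nonempty
  · -- `M` is not cofinitary
    obtain ⟨b, hb, b', hb', hbb⟩ := hBi.nontrivial
    have hY : ¬ M✶.Indep (A ∪ {b, b'}) := by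
      rw [Matroid.dual_indep_iff_exists']
      rintro ⟨-, C, hC, hCd⟩
      have hCE : C ⊆ A ∪ B := by rw [hAB, ← hME]; exact hC.subset_ground
      have hCB : C ⊆ B \ {b, b'} := by
        intro x hx
        rcases hCE hx with h | h
        · exact absurd hx (disjoint_left.1 hCd (Or.inl h))
        · exact ⟨h, fun h' => disjoint_left.1 hCd (Or.inr h') hx⟩
      have h6 : M.Indep (insert b C) := by
        apply hI2
        · exact insert_subset hb (hCB.trans sdiff_subset)
        · refine ⟨b', hb', ?_⟩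
          rintro (h | h)
          · exact hbb h.symm
          · exact (hCB h).2 (by simp)
      have h7 := hC.eq_of_subset_indep h6 (subset_insert _ _)
      have h8 : b ∈ C := by rw [h7]; exact mem_insert _ _
      exact (hCB h8).2 (by simp)
    apply hY
    rw [Matroid.indep_iff_forall_finite_subset_indep]
    intro J hJ hJf
    obtain ⟨a, ha⟩ := (hAi.sdiff hJf).nonempty
    rw [Matroid.dual_indep_iff_exists']
    refine ⟨?_, insert a (B \ {b, b'}), ?_, ?_⟩
    · rw [hME, ← hAB]
      refine hJ.trans (union_subset subset_union_left ?_)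
      exact (pair_subset hb hb').trans subset_union_right
    · rw [Matroid.isBase_iff_maximal_indep, maximal_subset_iff]
      refine ⟨?_, fun C hC hBC => ?_⟩
      · apply hI1
        · exact insert_subset (Or.inl ha.1) (sdiff_subset.trans subset_union_right)
        · have : ∀ x ∈ (insert a (B \ {b, b'})) ∩ A, x = a := by
            rintro x ⟨hx | hx, hxA⟩
            · exact hx
            · exact (hdis hxA hx.1).elim
          intro x hx y hy
          rw [this x hx, this y hy]
        · refine ⟨b, ⟨hb, ?_⟩, b', ⟨hb', ?_⟩, hbb⟩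
          · rintro (h | h)
            · exact hdis ha.1 (h ▸ hb)
            · exact h.2 (by simp)
          · rintro (h | h)
            · exact hdis ha.1 (h ▸ hb')
            · exact h.2 (by simp)
      · apply Subset.antisymm hBC
        intro e he
        by_contra heB
        have hCE : C ⊆ A ∪ B := by rw [hAB, ← hME]; exact hC.subset_ground
        have haC : a ∈ C := hBC (mem_insert _ _)
        rcases hCE he with heA | heB'
        · have hne : a ≠ e := fun h => heB (h ▸ mem_insert _ _)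
          exact hD1 a ha.1 e heA hne C haC he hC
        · have hebb : e = b ∨ e = b' := by
            by_contra hcon
            push Not at hcon
            exact heB (Or.inr ⟨heB', by simp [hcon.1, hcon.2]⟩)
          rcases hebb with rfl | rfl
          · apply hD2 C b' hb' ⟨a, ha.1, haC⟩ _ hC
            rintro x ⟨hx, hx'⟩
            by_cases hxe : x = e
            · exact hxe ▸ he
            · exact hBC (Or.inr ⟨hx, by
                rintro (h | h)
                · exact hxe h
                · exact hx' h⟩)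
          · apply hD2 C b hb ⟨a, ha.1, haC⟩ _ hC
            rintro x ⟨hx, hx'⟩
            by_cases hxe : x = e
            · exact hxe ▸ he
            · exact hBC (Or.inr ⟨hx, by
                rintro (h | h)
                · exact hx' h
                · exact hxe h⟩)
    · rw [disjoint_left]
      intro x hxJ hx
      rcases hx with hx | hx
      · exact ha.2 (hx ▸ hxJ)
      · rcases hJ hxJ with h | h
        · exact hdis h hx.1
        · exact hx.2 h

/-- For every infinite set `S` there is an admissible system, closed under arbitrary direct sums,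
in which every `D W` contains all independence spaces on `W`, such that for every infinite
`W ⊆ S` some B-matroid on `W` is not in `D W`. -/
theorem result (S : Type u) [Infinite S] :
    ∃ D : Set S → Set (Set (Set S)), IsAdmissible D ∧
      (∀ (W : Set S) (I : Set (Set S)), IsIndependenceSpace W I → I ∈ D W) ∧
      (∀ (κ : Type u) (W : κ → Set S) (I : κ → Set (Set S)),
        Pairwise (fun i j => Disjoint (W i) (W j)) → (∀ k, I k ∈ D (W k)) →
        directSum W I ∈ D (⋃ k, W k)) ∧
      ∀ W : Set S, W.Infinite → ∃ I, IsBMatroid W I ∧ I ∉ D W := by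
  refine ⟨sys S, isAdmissible_sys, independenceSpace_mem_sys, ?_, ?_⟩
  · intro κ W I hd hI
    exact directSum_mem_sys W I hd hI
  · intro W hW
    obtain ⟨M, hME, hM⟩ := exists_bad hW
    refine ⟨indeps M, hME ▸ isBMatroid_indeps M, ?_⟩
    rintro ⟨M', hM'E, ⟨P, hP⟩, hMM⟩
    have := indeps_inj (hME.trans hM'E.symm) hMM
    subst this
    exact hM P hP

end Pool.Agent.Results.MP_cb2a9f_co.DirectSums
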